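import Pool.Agent.H69.LQ.Lib

set_option autoImplicit false

open MeasureTheory Metric Set
open scoped ENNReal
open Pool.Agent.H85.LK (E adm lam Ann)
open Pool.Agent.H69.LQ

namespace Pool.Agent.H70.LQ

/-- (PV) signs and boundary values of the radial functions. -/
theorem pf_PV (hJS : T_JS) (hJP : T_JP) (_hPH : T_PH) : T_PV := by
  intro N L hN hF
  obtain ⟨ν, hν⟩ : ∃ ν : ℝ, ν = (N : ℝ) / 2 := ⟨_, rfl⟩
  have hN2 : (2 : ℝ) ≤ N := by exact_mod_cast hN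
  have hν1 : 1 ≤ ν := by rw [hν]; linarith
  have hL := hF.pos
  have hL4 : 0 < L / 4 := by linarith
  have hz := hF.zero
  have hf := hF.first
  rw [← hν] at hz hf
  have P2 := hJP (ν + 1) (L / 4) (by linarith) hL4 hf
  have P3 := hJP (ν + 1 + 1) (L / 4) (by linarith) hL4 fun z h0 h1 => P2 z h0 h1.le
  -- the recurrences
  have r1 := (hJS (ν + 1) (by linarith)).2.2.2 (L / 4)
  have r2 := (hJS (ν + 1 + 1) (by linarith)).2.2.2 (L / 4)
  have i3 : ν + 1 + 2 = ν + 1 + 1 + 1 := by ring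
  rw [hz, i3] at r1
  have hs : ∀ r : ℝ, 0 < r → r < 1 → 0 ≤ L * r ^ 2 / 4 ∧ L * r ^ 2 / 4 < L / 4 := by
    intro r h0 h1
    have h2 : r ^ 2 < 1 := by nlinarith
    constructor
    · positivity
    · nlinarith
  have hs' : ∀ r : ℝ, 0 < r → r ≤ 1 → 0 ≤ L * r ^ 2 / 4 ∧ L * r ^ 2 / 4 ≤ L / 4 := by
    intro r h0 h1
    have h2 : r ^ 2 ≤ 1 := by nlinarith
    constructor
    · positivity
    · nlinarith
  have j0 : (N : ℝ) / 2 + ((0 : ℕ) : ℝ) = ν := by rw [← hν]; push_cast; ring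
  have j1 : (N : ℝ) / 2 + ((1 : ℕ) : ℝ) = ν + 1 := by rw [← hν]; push_cast; ring
  have j2 : (N : ℝ) / 2 + ((2 : ℕ) : ℝ) = ν + 1 + 1 := by rw [← hν]; push_cast; ring
  have j3 : (N : ℝ) / 2 + ((3 : ℕ) : ℝ) = ν + 1 + 1 + 1 := by rw [← hν]; push_cast; ring
  have hNν : (N : ℝ) = 2 * ν := by rw [hν]; ring
  have e1 : L * (1 : ℝ) ^ 2 / 4 = L / 4 := by ring
  have ha2 : 0 < J (ν + 1 + 1) (L / 4) := P2 (L / 4) hL4.le le_rfl
  refine ⟨fun r h0 h1 => ?_, ?_, ?_, fun r h0 h1 => ⟨?_, ?_⟩, ?_, ?_, fun r h0 h1 => ?_⟩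
  · unfold ph
    rw [j1]
    exact mul_pos (pow_pos h0 _) (hf _ (hs r h0 h1).1 (hs r h0 h1).2)
  · unfold ph
    rw [j1, e1, hz, mul_zero]
  · unfold dph
    rw [j1, e1, hz]
    have h1 : 0 < J (ν + 1 + 1) (L / 4) / (ν + 1) := div_pos ha2 (by linarith)
    have h2 : 0 < L / 2 * (J (ν + 1 + 1) (L / 4) / (ν + 1)) := mul_pos (by linarith) h1
    rw [mul_zero, one_pow, one_mul, mul_one, zero_sub]
    linarith
  · unfold ph
    rw [j2]
    exact mul_pos (pow_pos h0 _) (P2 _ (hs' r h0 h1).1 (hs' r h0 h1).2)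
  · unfold ph
    rw [j3]
    exact mul_pos (pow_pos h0 _) (P3 _ (hs' r h0 h1).1 (hs' r h0 h1).2)
  · unfold dph ph
    rw [j2, e1, hNν]
    have hne1 : ν + 1 ≠ 0 := by linarith
    have hne2 : ν + 1 + 1 ≠ 0 := by linarith
    have h1 : J (ν + 1 + 1) (L / 4) =
        L / 4 / ((ν + 1) * (ν + 1 + 1)) * J (ν + 1 + 1 + 1) (L / 4) := by linarith
    have h2 : L / 2 * (J (ν + 1 + 1 + 1) (L / 4) / (ν + 1 + 1)) =
        2 * (ν + 1) * J (ν + 1 + 1) (L / 4) := by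
      rw [h1]
      field_simp
      ring
    push_cast
    rw [one_pow, one_pow, one_mul, mul_one, mul_one, one_mul, h2]
    ring
  · unfold dph ph
    rw [j3, e1, hNν]
    have hne1 : ν + 1 ≠ 0 := by linarith
    have hne2 : ν + 1 + 1 ≠ 0 := by linarith
    have hne3 : ν + 1 + 1 + 1 ≠ 0 := by linarith
    have i4 : ν + 1 + 1 + 2 = ν + 1 + 1 + 1 + 1 := by ring
    rw [i4] at r2
    have h1 : J (ν + 1 + 1) (L / 4) =
        L / 4 / ((ν + 1) * (ν + 1 + 1)) * J (ν + 1 + 1 + 1) (L / 4) := by linarith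
    have h2 : L / 2 * (J (ν + 1 + 1 + 1 + 1) (L / 4) / (ν + 1 + 1 + 1)) =
        2 * (ν + 1 + 1) * (J (ν + 1 + 1 + 1) (L / 4) - J (ν + 1 + 1) (L / 4)) := by
      have h3 : J (ν + 1 + 1 + 1) (L / 4) - J (ν + 1 + 1) (L / 4) =
          L / 4 / ((ν + 1 + 1) * (ν + 1 + 1 + 1)) * J (ν + 1 + 1 + 1 + 1) (L / 4) := by linarith
      rw [h3]
      field_simp
      ring
    have h4 : (2 * ν + 2) ≠ 0 := by linarith
    push_cast
    rw [one_pow, one_pow, one_mul, mul_one, mul_one, one_mul, h2, h1]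
    field_simp
    ring
  · unfold dph
    rw [j0]
    have h2 : 0 < J (ν + 1) (L * r ^ 2 / 4) / ν :=
      div_pos (hf _ (hs r h0 h1).1 (hs r h0 h1).2) (by linarith)
    have h3 : 0 < L * r / 2 * (J (ν + 1) (L * r ^ 2 / 4) / ν) := mul_pos (by positivity) h2
    push_cast
    rw [zero_mul, zero_mul, pow_zero, one_mul]
    linarith

end Pool.Agent.H70.LQ
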